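import Pool.Agent.H67.HM.Stm2

open Polynomial MeasureTheory Filter Topology

namespace HM

lemma mn_TT_mul (D : ℤ) : TT (-D) * TT D = 1 := by
  unfold TT
  rw [AddMonoidAlgebra.single_mul_single, neg_add_cancel, one_mul, AddMonoidAlgebra.one_def]

lemma mn_tl_X_pow (n : ℕ) : tl (X ^ n) = TT (n : ℤ) := by
  unfold tl TT
  exact Polynomial.toLaurent_X_pow n

lemma mn_tl_G (A γ b : ℂ[X]) (D : ℕ) :
    tl (A * (1 + 4 * X ^ D) + γ * b) = tl A * (1 + (4 : ℂ) • TT (D : ℤ)) + tl γ * tl b := by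
  rw [map_add, map_mul, map_mul, map_add, map_one, map_mul, mn_tl_X_pow]
  have h4 : tl 4 = 4 := map_ofNat tl 4
  rw [h4, Algebra.smul_def, map_ofNat]

lemma mn_TT_pow_mul (hN : S_NRM) (r : ℝ) (hr : 1 ≤ r) (k : ℤ) (n : ℕ) (x : RR) :
    Nn r (TT k ^ n * x) = Nn r x := by
  induction n with
  | zero => simp
  | succ n ih =>
    rw [pow_succ', mul_assoc]
    unfold TT
    rw [hN.single_mul r k _ hr]
    exact ih

lemma mn_u_mul (hMUL : S_MUL) (hN : S_NRM) (γ a : RR) (b : ℂ[X]) (U Ca : ℝ) (hU : 1 ≤ U)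
    (hγU : Nn 1 γ * Ca ≤ U) (ha : Nn 1 a ≤ Ca)
    (hb : ∀ z : ℂ, ‖z‖ = 1 → U * ‖b.eval z‖ ≤ 1) (x : RR) :
    Nn 2 (γ * a * tl b * x) ≤ Nn 2 x := by
  have hU0 : 0 < U := by linarith
  have h1 : Nn 2 (tl b * x) ≤ (1 / U) * Nn 2 x := by
    apply hMUL b (1 / U) (by positivity)
    intro z hz
    rw [le_div_iff₀ hU0, mul_comm]
    exact hb z hz
  have h2 : Nn 1 (γ * a) ≤ U := by
    calc Nn 1 (γ * a) ≤ Nn 1 γ * Nn 1 a := hN.mul 1 γ a le_rfl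
      _ ≤ Nn 1 γ * Ca := mul_le_mul_of_nonneg_left ha (hN.nonneg 1 γ)
      _ ≤ U := hγU
  calc Nn 2 (γ * a * tl b * x) = Nn 2 ((γ * a) * (tl b * x)) := by rw [mul_assoc (γ * a)]
    _ ≤ Nn 1 (γ * a) * Nn 2 (tl b * x) := hN.mul 2 _ _ (by norm_num)
    _ ≤ U * ((1 / U) * Nn 2 x) := by
        apply mul_le_mul h2 h1 (hN.nonneg 2 _) hU0.le
    _ = Nn 2 x := by field_simp

lemma mn_pow_bound (hN : S_NRM) (u : RR) (hu : ∀ x : RR, Nn 2 (u * x) ≤ Nn 2 x) (t : ℕ) (x : RR) :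
    Nn 2 ((1 + u) ^ t * x) ≤ 2 ^ t * Nn 2 x := by
  induction t with
  | zero => simp
  | succ t ih =>
    have h0 : (1 + u) ^ (t + 1) * x = (1 + u) ^ t * x + u * ((1 + u) ^ t * x) := by ring
    rw [h0]
    calc Nn 2 ((1 + u) ^ t * x + u * ((1 + u) ^ t * x))
        ≤ Nn 2 ((1 + u) ^ t * x) + Nn 2 (u * ((1 + u) ^ t * x)) := hN.add 2 _ _ (by norm_num)
      _ ≤ Nn 2 ((1 + u) ^ t * x) + Nn 2 ((1 + u) ^ t * x) := by
          linarith [hu ((1 + u) ^ t * x)]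
      _ ≤ 2 ^ t * Nn 2 x + 2 ^ t * Nn 2 x := by linarith
      _ = 2 ^ (t + 1) * Nn 2 x := by ring

lemma mn_norm_c (t : ℕ) : ‖((-1 / 4 : ℂ) ^ t)‖ = (1 / 4 : ℝ) ^ t := by
  rw [norm_pow]
  congr 1
  rw [norm_div, norm_neg, norm_one]
  norm_num

lemma mn_tau (hN : S_NRM) (u r E Ti : RR) (k : ℤ) (hTi : Ti = TT k)
    (hu : ∀ x : RR, Nn 2 (u * x) ≤ Nn 2 x) (t₀ : ℕ) :
    Nn 2 (((-1 / 4 : ℂ) ^ t₀) • (Ti ^ t₀ * (1 + u) ^ t₀ * r) -
      E * ∑ t ∈ Finset.range t₀,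
        (((-1 / 4 : ℂ) ^ t / 4) • (Ti ^ (t + 1) * (1 + u) ^ t * r) +
          ((-1 / 4 : ℂ) ^ t) • (Ti ^ t * (1 + u) ^ t * r))) ≤
      (1 / 2) ^ t₀ * Nn 2 r + Nn 1 E * (5 / 2 * Nn 2 r) := by
  have h2 : (1 : ℝ) ≤ 2 := by norm_num
  have hb1 : ∀ t s : ℕ, Nn 2 (Ti ^ s * (1 + u) ^ t * r) ≤ 2 ^ t * Nn 2 r := by
    intro t s
    rw [mul_assoc, hTi, mn_TT_pow_mul hN 2 h2]
    exact mn_pow_bound hN u hu t r
  have hr0 := hN.nonneg 2 r
  have hE0 := hN.nonneg 1 E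
  have hA : Nn 2 (((-1 / 4 : ℂ) ^ t₀) • (Ti ^ t₀ * (1 + u) ^ t₀ * r)) ≤ (1 / 2) ^ t₀ * Nn 2 r := by
    rw [hN.smul 2 _ _ h2, mn_norm_c]
    calc (1 / 4 : ℝ) ^ t₀ * Nn 2 (Ti ^ t₀ * (1 + u) ^ t₀ * r)
        ≤ (1 / 4 : ℝ) ^ t₀ * (2 ^ t₀ * Nn 2 r) := by
          apply mul_le_mul_of_nonneg_left (hb1 t₀ t₀) (by positivity)
      _ = (1 / 2) ^ t₀ * Nn 2 r := by
          rw [← mul_assoc, ← mul_pow]; norm_num
  have hB : Nn 2 (∑ t ∈ Finset.range t₀,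
        (((-1 / 4 : ℂ) ^ t / 4) • (Ti ^ (t + 1) * (1 + u) ^ t * r) +
          ((-1 / 4 : ℂ) ^ t) • (Ti ^ t * (1 + u) ^ t * r))) ≤ 5 / 2 * Nn 2 r := by
    calc _ ≤ ∑ t ∈ Finset.range t₀, Nn 2 (((-1 / 4 : ℂ) ^ t / 4) • (Ti ^ (t + 1) * (1 + u) ^ t * r) +
          ((-1 / 4 : ℂ) ^ t) • (Ti ^ t * (1 + u) ^ t * r)) := hN.sum 2 _ _ h2
      _ ≤ ∑ t ∈ Finset.range t₀, (1 / 2 : ℝ) ^ t * (5 / 4 * Nn 2 r) := by
          apply Finset.sum_le_sum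
          intro t _
          calc _ ≤ Nn 2 (((-1 / 4 : ℂ) ^ t / 4) • (Ti ^ (t + 1) * (1 + u) ^ t * r)) +
                Nn 2 (((-1 / 4 : ℂ) ^ t) • (Ti ^ t * (1 + u) ^ t * r)) := hN.add 2 _ _ h2
            _ = (1 / 4 : ℝ) ^ t / 4 * Nn 2 (Ti ^ (t + 1) * (1 + u) ^ t * r) +
                (1 / 4 : ℝ) ^ t * Nn 2 (Ti ^ t * (1 + u) ^ t * r) := by
                rw [hN.smul 2 _ _ h2, hN.smul 2 _ _ h2, norm_div, mn_norm_c]
                norm_num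
            _ ≤ (1 / 4 : ℝ) ^ t / 4 * (2 ^ t * Nn 2 r) + (1 / 4 : ℝ) ^ t * (2 ^ t * Nn 2 r) := by
                have e1 := hb1 t (t + 1)
                have e2 := hb1 t t
                gcongr
            _ = (1 / 2 : ℝ) ^ t * (5 / 4 * Nn 2 r) := by
                have e3 : (1 / 4 : ℝ) ^ t * 2 ^ t = (1 / 2) ^ t := by
                  rw [← mul_pow]; norm_num
                rw [← e3]; ring
      _ = (∑ t ∈ Finset.range t₀, (1 / 2 : ℝ) ^ t) * (5 / 4 * Nn 2 r) := by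
          rw [Finset.sum_mul]
      _ ≤ 2 * (5 / 4 * Nn 2 r) := by
          apply mul_le_mul_of_nonneg_right _ (by positivity)
          exact sum_geometric_two_le t₀
      _ = 5 / 2 * Nn 2 r := by ring
  calc _ ≤ Nn 2 (((-1 / 4 : ℂ) ^ t₀) • (Ti ^ t₀ * (1 + u) ^ t₀ * r)) +
      Nn 2 (E * ∑ t ∈ Finset.range t₀,
        (((-1 / 4 : ℂ) ^ t / 4) • (Ti ^ (t + 1) * (1 + u) ^ t * r) +
          ((-1 / 4 : ℂ) ^ t) • (Ti ^ t * (1 + u) ^ t * r))) := hN.sub 2 _ _ h2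
    _ ≤ (1 / 2) ^ t₀ * Nn 2 r + Nn 1 E * (5 / 2 * Nn 2 r) := by
      apply add_le_add hA
      exact (hN.mul 2 _ _ h2).trans (mul_le_mul_of_nonneg_left hB hE0)

lemma mn_exists_shift (m : ℕ) (x : Fin m → RR) :
    ∃ N : ℕ, ∀ D : ℕ, N ≤ D → ∀ i, ∀ k : ℤ, k ≤ 0 → (TT (D : ℤ) * x i).coeff k = 0 := by
  classical
  refine ⟨(∑ i, ∑ k ∈ (x i).coeff.support, k.natAbs) + 1, ?_⟩
  intro D hD i k hk
  by_contra hne
  have hc : (TT (D : ℤ) * x i).coeff k = (x i).coeff (k - D) := by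
    unfold TT
    rw [AddMonoidAlgebra.coeff_single_mul_apply, one_mul]
    congr 1
    ring
  rw [hc] at hne
  have hmem : (k - D) ∈ (x i).coeff.support := Finsupp.mem_support_iff.mpr hne
  have h1 : (k - D).natAbs ≤ ∑ k ∈ (x i).coeff.support, k.natAbs :=
    Finset.single_le_sum (f := fun k : ℤ => k.natAbs) (fun _ _ => Nat.zero_le _) hmem
  have h2 : ∑ k ∈ (x i).coeff.support, k.natAbs ≤ ∑ i, ∑ k ∈ (x i).coeff.support, k.natAbs :=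
    Finset.single_le_sum (f := fun i => ∑ k ∈ (x i).coeff.support, k.natAbs)
      (fun _ _ => Nat.zero_le _) (Finset.mem_univ i)
  omega

lemma mn_id (A γ b a Td Y f ψ r S Z Q E4 : RR) (hr : r = (A + γ * b) * Y - γ * f - ψ)
    (h : (A * (1 + (4 : ℂ) • Td) + γ * b) * Z = -r + S - (A * a - 1) * Q)
    (hE : E4 = (4 : ℂ) • (Td * (A * Y))) :
    (A * (1 + (4 : ℂ) • Td) + γ * b) * (Y + Z) - γ * f - ψ - E4 = S - (A * a - 1) * Q := by
  have e1 : E4 = A * ((4 : ℂ) • Td) * Y := by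
    rw [hE, Algebra.smul_def, Algebra.smul_def]; ring
  rw [mul_add, h, e1, hr]
  generalize (4 : ℂ) • Td = T4
  ring

set_option maxHeartbeats 4000000 in
theorem MN_proved (hEST : S_EST) (hSTR : S_STR) (hTEL : S_TEL) (hBIN : S_BIN) (hMUL : S_MUL)
    (hN : S_NRM) : S_MN := by
  intro p hp A hA
  have hp1 : 1 ≤ p := by linarith
  obtain ⟨Ca, hCa, hinv, hest⟩ := hEST p hp A hA
  refine ⟨Ca, hCa, ?_⟩
  intro γ hγ m f ψ ε T₀ hε
  obtain ⟨n, c, η, U, ρ, κ, W, hη, hU, hρ, hκ, hW, hγU, hγA, hst⟩ :=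
    hest γ hγ m f ψ (ε / 2) (by positivity)
  obtain ⟨b, Ds, hS⟩ := hSTR p hp (n + 1) η U ρ W T₀ (by omega) hη hU hρ
  have hest' := hst T₀ b Ds hS
  set Y₁ : Fin m → RR := fun i =>
    ∑ l ∈ Finset.range (n + 1), (-(tl A * c)) ^ l * f i * Ds (l + 1) with hY₁
  set r : Fin m → RR := fun i => (tl A + tl γ * tl b) * Y₁ i - tl γ * f i - ψ i with hr
  obtain ⟨N, hNN⟩ := mn_exists_shift m (fun i => tl A * Y₁ i)
  set D : ℕ := max T₀ N with hD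
  refine ⟨b, D, hS.low, le_max_left _ _, ?_, ?_, ?_⟩
  · rw [map_mul]
    exact hS.nq (tl γ) hW
  · intro z hz h0
    have hU0 : 0 < U := by linarith
    have hb := hS.sup z hz
    have h1 : ‖γ.eval z * b.eval z‖ ≤ ‖A.eval z‖ := by
      rw [norm_mul]
      calc ‖γ.eval z‖ * ‖b.eval z‖ ≤ (U * ‖A.eval z‖) * ‖b.eval z‖ :=
            mul_le_mul_of_nonneg_right (hγA z hz).le (norm_nonneg _)
        _ = ‖A.eval z‖ * (U * ‖b.eval z‖) := by ring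
        _ ≤ ‖A.eval z‖ * 1 := mul_le_mul_of_nonneg_left hb (norm_nonneg _)
        _ = ‖A.eval z‖ := mul_one _
    have h2 : 3 * ‖A.eval z‖ ≤ ‖A.eval z * (1 + 4 * z ^ D)‖ := by
      rw [norm_mul]
      have h3 : 3 ≤ ‖1 + 4 * z ^ D‖ := by
        have h4 : ‖(4 : ℂ) * z ^ D‖ = 4 := by
          rw [norm_mul, norm_pow, hz]; norm_num
        have h5 : ‖(4 : ℂ) * z ^ D‖ ≤ ‖1 + 4 * z ^ D‖ + ‖(1 : ℂ)‖ := by
          have := norm_sub_le (1 + 4 * z ^ D) (1 : ℂ)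
          simpa using this
        rw [h4, norm_one] at h5
        linarith
      calc 3 * ‖A.eval z‖ = ‖A.eval z‖ * 3 := by ring
        _ ≤ ‖A.eval z‖ * ‖1 + 4 * z ^ D‖ := mul_le_mul_of_nonneg_left h3 (norm_nonneg _)
    have h6 : A.eval z * (1 + 4 * z ^ D) + γ.eval z * b.eval z = 0 := by
      simpa using h0
    have h7 : A.eval z * (1 + 4 * z ^ D) = -(γ.eval z * b.eval z) := by
      linear_combination h6
    rw [h7, norm_neg] at h2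
    have h8 : 0 < ‖A.eval z‖ := norm_pos_iff.mpr (hA z hz)
    linarith
  · intro ε' hε'
    -- choose t₀ and the accuracy
    obtain ⟨R, hR0, hR⟩ : ∃ R : ℝ, 0 ≤ R ∧ ∀ i, Nn 2 (r i) ≤ R := by
      refine ⟨∑ i, Nn 2 (r i), Finset.sum_nonneg (fun i _ => hN.nonneg 2 _), ?_⟩
      intro i
      exact Finset.single_le_sum (f := fun i => Nn 2 (r i)) (fun i _ => hN.nonneg 2 _)
        (Finset.mem_univ i)
    obtain ⟨t₀, ht₀⟩ : ∃ t₀ : ℕ, (1 / 2 : ℝ) ^ t₀ < ε' / (2 * (R + 1)) :=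
      exists_pow_lt_of_lt_one (by positivity) (by norm_num)
    obtain ⟨a, ha1, ha2⟩ := hinv (min κ (ε' / (5 * (R + 1)))) (lt_min hκ (by positivity))
    have hu : ∀ x : RR, Nn 2 (tl γ * a * tl b * x) ≤ Nn 2 x :=
      mn_u_mul hMUL hN (tl γ) a b U Ca hU hγU ha2 hS.sup
    have hTi : TT (-(D : ℤ)) * TT (D : ℤ) = 1 := mn_TT_mul D
    refine ⟨fun i => Y₁ i + -∑ t ∈ Finset.range t₀,
      ((-1 / 4 : ℂ) ^ t / 4) • (TT (-(D : ℤ)) ^ (t + 1) * a * (1 + tl γ * a * tl b) ^ t * r i),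
      fun i => (4 : ℂ) • (TT (D : ℤ) * (tl A * Y₁ i)), ?_⟩
    intro i
    refine ⟨?_, ?_, ?_⟩
    · intro k hk
      have h := hNN D (le_max_right _ _) i k hk
      simp only [AddMonoidAlgebra.coeff_smul]
      simp [h]
    · have h1 : Nn p (Y₁ i) ≤ Nn p (f i) + ε / 2 := (hest' i).1
      have h2 := (hest' i).2 a (ha1.trans (min_le_left _ _)) ha2 t₀
      have h3 : (∑ t ∈ Finset.range t₀,
          ((-1 / 4 : ℂ) ^ t / 4) • (TT (-(D : ℤ)) ^ (t + 1) * a * (1 + tl γ * a * tl b) ^ t * r i)) =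
          ∑ t ∈ Finset.range t₀, ((-1 / 4 : ℂ) ^ t / 4) •
            (TT (-(D : ℤ)) ^ (t + 1) * (1 + tl γ * a * tl b) ^ t * (a * r i)) := by
        apply Finset.sum_congr rfl
        intro t _
        congr 1
        ring
      have h4 := hBIN p (D : ℤ) (tl γ * a * tl b) (a * r i) t₀ hp1
      calc _ ≤ Nn p (Y₁ i) + Nn p (-∑ t ∈ Finset.range t₀,
            ((-1 / 4 : ℂ) ^ t / 4) •
              (TT (-(D : ℤ)) ^ (t + 1) * a * (1 + tl γ * a * tl b) ^ t * r i)) :=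
            hN.add p _ _ hp1
        _ = Nn p (Y₁ i) + Nn p (∑ t ∈ Finset.range t₀, ((-1 / 4 : ℂ) ^ t / 4) •
            (TT (-(D : ℤ)) ^ (t + 1) * (1 + tl γ * a * tl b) ^ t * (a * r i))) := by
            rw [hN.neg, h3]
        _ ≤ (Nn p (f i) + ε / 2) + (Ca * Nn p (ψ i) + ε / 2) :=
            add_le_add h1 (h4.trans h2)
        _ = Nn p (f i) + Ca * Nn p (ψ i) + ε := by ring
    · have htel := hTEL (tl A) (tl γ) (tl b) a (TT (-(D : ℤ))) (TT (D : ℤ)) (r i) t₀ hTi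
      have hG := mn_tl_G A γ b D
      have hid : tl (A * (1 + 4 * X ^ D) + γ * b) * (Y₁ i + -∑ t ∈ Finset.range t₀,
          ((-1 / 4 : ℂ) ^ t / 4) •
            (TT (-(D : ℤ)) ^ (t + 1) * a * (1 + tl γ * a * tl b) ^ t * r i)) -
          tl γ * f i - ψ i - (4 : ℂ) • (TT (D : ℤ) * (tl A * Y₁ i)) =
          ((-1 / 4 : ℂ) ^ t₀) • (TT (-(D : ℤ)) ^ t₀ * (1 + tl γ * a * tl b) ^ t₀ * r i) -
          (tl A * a - 1) * ∑ t ∈ Finset.range t₀,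
            (((-1 / 4 : ℂ) ^ t / 4) •
              (TT (-(D : ℤ)) ^ (t + 1) * (1 + tl γ * a * tl b) ^ t * r i) +
            ((-1 / 4 : ℂ) ^ t) • (TT (-(D : ℤ)) ^ t * (1 + tl γ * a * tl b) ^ t * r i)) := by
        rw [hG]
        exact mn_id (tl A) (tl γ) (tl b) a (TT (D : ℤ)) (Y₁ i) (f i) (ψ i) (r i) _ _ _ _ rfl htel rfl
      rw [hid]
      calc _ ≤ Nn 2 (((-1 / 4 : ℂ) ^ t₀) •
            (TT (-(D : ℤ)) ^ t₀ * (1 + tl γ * a * tl b) ^ t₀ * r i) -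
          (tl A * a - 1) * ∑ t ∈ Finset.range t₀,
            (((-1 / 4 : ℂ) ^ t / 4) •
              (TT (-(D : ℤ)) ^ (t + 1) * (1 + tl γ * a * tl b) ^ t * r i) +
            ((-1 / 4 : ℂ) ^ t) • (TT (-(D : ℤ)) ^ t * (1 + tl γ * a * tl b) ^ t * r i))) :=
            hN.mono 2 p _ (by norm_num) hp.le
        _ ≤ (1 / 2) ^ t₀ * Nn 2 (r i) + Nn 1 (tl A * a - 1) * (5 / 2 * Nn 2 (r i)) :=
            mn_tau hN (tl γ * a * tl b) (r i) (tl A * a - 1) (TT (-(D : ℤ))) (-(D : ℤ)) rfl hu t₀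
        _ ≤ ε' / (2 * (R + 1)) * R + ε' / (5 * (R + 1)) * (5 / 2 * R) := by
            have g1 := hR i
            have g2 := hN.nonneg 2 (r i)
            have g3 : Nn 1 (tl A * a - 1) ≤ ε' / (5 * (R + 1)) := ha1.trans (min_le_right _ _)
            have g4 := hN.nonneg 1 (tl A * a - 1)
            gcongr
        _ = ε' * (R / (R + 1)) := by
            have : R + 1 ≠ 0 := by positivity
            field_simp
            ring
        _ ≤ ε' * 1 := by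
            apply mul_le_mul_of_nonneg_left _ hε'.le
            rw [div_le_one (by positivity)]
            linarith
        _ = ε' := mul_one _

end HM
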